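import Pool.Agent.BEL.StmtsE

/-!
# Squad BEL, row ENG: the energy identity for a curve
-/

set_option autoImplicit false

namespace Pool.Agent.BEL.H56

open MeasureTheory Filter Topology Set
open scoped InnerProductSpace ENNReal NNReal

noncomputable section

/-- ENG. -/
theorem eng (hgrq : GrqStmt) : EngStmt := by
  intro H _ _ _ κ b om W D h hW hh hD
  obtain ⟨-, -, -, g4, -, g6, g7, -⟩ := hgrq H κ b om W hW
  have hDc : Continuous D := continuous_iff_continuousAt.2 fun t => (hD t).continuousAt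
  have h1 : Continuous fun t => P2 (W t (D t)) := P2.continuous.comp (g6 D hDc)
  refine ⟨h1, fun s t => ?_⟩
  have h2 : ∀ r : ℝ, HasDerivAt (fun r => ‖D r‖ ^ 2) (-2 * ⟪h r, P2 (W r (D r))⟫_ℝ) r := by
    intro r
    have h3 := (hD r).norm_sq
    have h4 : ⟪D r, -(W (-r) (inj (h r)))⟫_ℝ = -⟪h r, P2 (W r (D r))⟫_ℝ := by
      rw [inner_neg_right, ← g4 r (D r) (inj (h r)), real_inner_comm, g7]
    rw [h4] at h3
    have h5 : 2 * -⟪h r, P2 (W r (D r))⟫_ℝ = -2 * ⟪h r, P2 (W r (D r))⟫_ℝ := by ring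
    rw [h5] at h3
    exact h3
  have h6 : Continuous fun r => -2 * ⟪h r, P2 (W r (D r))⟫_ℝ :=
    continuous_const.mul (hh.inner h1)
  have h7 := intervalIntegral.integral_eq_sub_of_hasDerivAt (a := s) (b := t)
    (fun r _ => h2 r) (h6.intervalIntegrable s t)
  rw [← h7, intervalIntegral.integral_const_mul]

end

end Pool.Agent.BEL.H56
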