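import Pool.Agent.BEL.StmtsC
import Pool.Agent.Helper61_BEL.LemA

/-!
# Squad BEL, row GDF: good directions of a flow
-/

set_option autoImplicit false

namespace Pool.Agent.BEL.H56

open MeasureTheory Filter Topology Set
open scoped InnerProductSpace ENNReal NNReal

noncomputable section

theorem mup_pos (al : ℝ) (m : ℕ) : 0 < mup al m := by
  unfold mup
  positivity

theorem mup_le {al : ℝ} {m : ℕ} (h : Prm al m) : mup al m ≤ 1 / 4 := by
  unfold mup
  have h1 : (2 : ℝ) ^ (-(lam al * m)) ≤ (2 : ℝ) ^ (-2 : ℝ) :=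
    Real.rpow_le_rpow_of_exponent_le (by norm_num) (by linarith [h.m1])
  have h2 : (2 : ℝ) ^ (-2 : ℝ) = 1 / 4 := by
    rw [Real.rpow_neg (by norm_num)]
    norm_num
  exact h1.trans h2.le

theorem lgm_pos {al : ℝ} {m : ℕ} (h : Prm al m) : 0 < lgm al m := by
  unfold lgm
  have h1 := mup_pos al m
  have h2 := mup_le h
  have h3 : (1 : ℝ) < 1 / mup al m := by
    rw [lt_div_iff₀ h1]
    linarith
  have := Real.log_pos h3
  linarith

theorem nup_pos {al : ℝ} {m : ℕ} (h : Prm al m) : 0 < nup al m := by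
  unfold nup
  have := lgm_pos h
  exact lt_min one_pos (by linarith)

theorem num {al : ℝ} {m : ℕ} (h : Prm al m) :
    1 + nup al m + mup al m * Map al m ≤ Real.sqrt (mup al m) * (1 + Map al m) := by
  have h1 := mup_pos al m
  have h2 := mup_le h
  obtain ⟨s, hs⟩ : ∃ s, s = Real.sqrt (mup al m) := ⟨_, rfl⟩
  have hs0 : 0 < s := by
    rw [hs]
    exact Real.sqrt_pos.2 h1
  have hs2 : s ^ 2 = mup al m := by
    rw [hs]
    exact Real.sq_sqrt h1.le
  have hs1 : s ≤ 1 / 2 := by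
    by_contra hc
    push Not at hc
    nlinarith
  have hn : nup al m ≤ 1 := min_le_left _ _
  unfold Map
  rw [← hs, ← hs2]
  have e1 : s ^ 2 * (4 / s) = 4 * s := by
    field_simp
  have e2 : s * (1 + 4 / s) = s + 4 := by
    field_simp
  rw [e1, e2]
  linarith

/-- GDF. -/
theorem gdf : GdfStmt := by
  intro al m hP E _ _ _ Ψ hE hdet hanti N
  classical
  have hne : ∀ k, LinearMap.det (Ψ k : E →ₗ[ℝ] E) ≠ 0 := fun k => (hdet k).ne'
  let P : ℕ → (E ≃ₗ[ℝ] E) := fun k => LinearMap.equivOfDetNeZero (Ψ k : E →ₗ[ℝ] E) (hne k)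
  have hPa : ∀ k c, P k c = Ψ k c := fun k c => rfl
  have hPs : ∀ k x, Ψ k ((P k).symm x) = x := fun k x => (P k).apply_symm_apply x
  let T : ℕ → E →ₗ[ℝ] E := fun k => (Ψ (k + 1) : E →ₗ[ℝ] E) ∘ₗ ((P k).symm : E →ₗ[ℝ] E)
  have hT : ∀ k x, ‖T k x‖ ≤ ‖x‖ := by
    intro k x
    have h1 := hanti ((P k).symm x) k
    rw [hPs] at h1
    exact h1
  have hdT : ∀ k, LinearMap.det (T k) =
      LinearMap.det (Ψ (k + 1) : E →ₗ[ℝ] E) / LinearMap.det (Ψ k : E →ₗ[ℝ] E) := by
    intro k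
    have h1 : (T k) ∘ₗ (Ψ k : E →ₗ[ℝ] E) = (Ψ (k + 1) : E →ₗ[ℝ] E) := by
      ext c
      change Ψ (k + 1) ((P k).symm (P k c)) = Ψ (k + 1) c
      rw [(P k).symm_apply_apply]
    have h2 := LinearMap.det_comp (T k) (Ψ k : E →ₗ[ℝ] E)
    rw [h1] at h2
    rw [h2, mul_div_assoc, div_self (hne k), mul_one]
  have hdT0 : ∀ k, LinearMap.det (T k) ≠ 0 := by
    intro k
    rw [hdT k]
    exact div_ne_zero (hne _) (hne _)
  obtain ⟨bad, hb1, hb2, hb3⟩ := Pool.Agent.BEL.H61.lemA T hT hdT0 hE (mup_pos al m)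
    (by linarith [mup_le hP]) (nup_pos hP)
    (show 0 < Map al m from by
      unfold Map
      have := Real.sqrt_pos.2 (mup_pos al m)
      positivity) (num hP) N
  refine ⟨bad, hb1, ?_, ?_⟩
  · have h1 : ∑ k ∈ Finset.range N,
        (- Real.log |LinearMap.det (T k)| / (Module.finrank ℝ E : ℝ)) =
        (1 / (Module.finrank ℝ E : ℝ)) * (Real.log (LinearMap.det (Ψ 0 : E →ₗ[ℝ] E)) -
          Real.log (LinearMap.det (Ψ N : E →ₗ[ℝ] E))) := by
      rw [← Finset.sum_range_sub' (fun k => Real.log (LinearMap.det (Ψ k : E →ₗ[ℝ] E))) N,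
        Finset.mul_sum]
      refine Finset.sum_congr rfl fun k _ => ?_
      rw [hdT k, abs_of_pos (div_pos (hdet _) (hdet _)), Real.log_div (hne _) (hne _)]
      ring
    rw [h1] at hb2
    unfold lgm
    refine hb2.trans (le_of_eq ?_)
    ring
  · intro k hk hkb
    obtain ⟨F, hF1, hF2⟩ := hb3 k hk hkb
    let f : OrthonormalBasis (Fin (Module.finrank ℝ F)) ℝ F := stdOrthonormalBasis ℝ F
    refine ⟨Module.finrank ℝ F, fun i => (P k).symm (f i : E), hF1, ?_⟩
    have hsum : ∀ a : Fin (Module.finrank ℝ F) → ℝ,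
        Ψ k (∑ i, a i • (P k).symm (f i : E)) = ((∑ i, a i • f i : F) : E) := by
      intro a
      rw [map_sum, Submodule.coe_sum]
      refine Finset.sum_congr rfl fun i _ => ?_
      rw [map_smul, hPs, Submodule.coe_smul]
    have hnorm : ∀ a : Fin (Module.finrank ℝ F) → ℝ,
        ‖Ψ k (∑ i, a i • (P k).symm (f i : E))‖ ^ 2 = ∑ i, a i ^ 2 := by
      intro a
      rw [hsum, ← Submodule.coe_norm]
      have h1 : (∑ i, a i • f i : F) = f.repr.symm (WithLp.toLp 2 a) := by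
        rw [← f.sum_repr_symm]
      rw [h1, f.repr.symm.norm_map, EuclideanSpace.norm_sq_eq]
      exact Finset.sum_congr rfl fun i _ => by rw [Real.norm_eq_abs, sq_abs]
    refine ⟨hnorm, ?_⟩
    intro j hj a
    have htr : ∀ (l : ℕ) (c : E), Pool.Agent.BEL.H61.tr T j l (Ψ j c) = Ψ (j + l) c := by
      intro l c
      induction l with
      | zero => rfl
      | succ l ih =>
        change T (j + l) (Pool.Agent.BEL.H61.tr T j l (Ψ j c)) = Ψ (j + (l + 1)) c
        rw [ih]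
        change Ψ (j + l + 1) ((P (j + l)).symm (P (j + l) c)) = Ψ (j + (l + 1)) c
        rw [(P (j + l)).symm_apply_apply]
        rfl
    have hk' : j + (k - 1 - j) + 1 = k := by omega
    have hk2 : j + (k - 1 - j + 1) = k := by omega
    have h1 : Pool.Agent.BEL.H61.tr T j (k - 1 - j + 1)
        (Ψ j (∑ i, a i • (P k).symm (f i : E))) = Ψ k (∑ i, a i • (P k).symm (f i : E)) := by
      rw [htr, hk2]
    have h2 := hF2 j (k - 1 - j) hk' (Ψ j (∑ i, a i • (P k).symm (f i : E))) (by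
      rw [h1, hsum]
      exact Submodule.coe_mem _)
    rw [h1, hnorm] at h2
    exact h2

end

end Pool.Agent.BEL.H56
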